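import Mathlib

/-!
Reconstruction: Kelly's lemma and a Kocay type lemma for sums over ordered partitions of the
vertex set.
-/

set_option autoImplicit false
set_option linter.unusedSectionVars false

namespace Pool.Agent.H15.EC

open Finset

variable {V : Type*} [Fintype V] [DecidableEq V]

/-- The permutation `f` of the vertex set carries `G[W]` isomorphically onto `H[f(W)]`. -/
def PIso (G H : SimpleGraph V) (f : V ≃ V) (W : Finset V) : Prop :=
  ∀ x ∈ W, ∀ y ∈ W, (G.Adj x y ↔ H.Adj (f x) (f y))

/-- `Φ G W` depends only on the isomorphism type of `G[W]`. -/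
def Inv (Φ : SimpleGraph V → Finset V → ℚ) : Prop :=
  ∀ G H f W, PIso G H f W → Φ G W = Φ H (W.map f.toEmbedding)

/-- `G` and `H` have the same deck, the card `G - v` being matched with `H - σ v`. -/
def Deck (G H : SimpleGraph V) (σ : V ≃ V) : Prop :=
  ∀ v, ∃ f : V ≃ V, f v = σ v ∧ PIso G H f (univ.erase v)

theorem PIso.mono {G H : SimpleGraph V} {f : V ≃ V} {W W' : Finset V} (h : PIso G H f W)
    (hs : W' ⊆ W) : PIso G H f W' := fun x hx y hy => h x (hs hx) y (hs hy)

/-- The sum of `Φ G W` over the `j`-subsets `W`. -/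
def S (Φ : SimpleGraph V → Finset V → ℚ) (j : ℕ) (G : SimpleGraph V) : ℚ :=
  ∑ W ∈ powersetCard j univ, Φ G W

theorem map_erase (f : V ≃ V) (v : V) :
    ((univ : Finset V).erase v).map f.toEmbedding = univ.erase (f v) := by
  ext x
  simp only [mem_map, mem_erase, mem_univ, and_true, Equiv.coe_toEmbedding]
  constructor
  · rintro ⟨y, hy, rfl⟩ h
    exact hy (f.injective h)
  · intro hx
    exact ⟨f.symm x, fun h => hx (by rw [← h, f.apply_symm_apply]), f.apply_symm_apply x⟩

theorem sum_erase (Φ : SimpleGraph V → Finset V → ℚ) (G : SimpleGraph V) (j : ℕ) :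
    ∑ v, ∑ W ∈ powersetCard j (univ.erase v), Φ G W =
      ((Fintype.card V : ℚ) - j) * S Φ j G := by
  have h1 : ∀ v : V, ∑ W ∈ powersetCard j (univ.erase v), Φ G W =
      ∑ W ∈ powersetCard j univ, if v ∉ W then Φ G W else 0 := by
    intro v
    rw [← Finset.sum_filter]
    apply Finset.sum_congr _ (fun _ _ => rfl)
    ext W
    simp only [mem_powersetCard, mem_filter, subset_erase]
    tauto
  simp_rw [h1]
  rw [Finset.sum_comm, S, Finset.mul_sum]
  apply Finset.sum_congr rfl
  intro W hW
  rw [mem_powersetCard] at hW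
  rw [← Finset.sum_filter, Finset.sum_const, nsmul_eq_mul]
  congr 1
  have h2 : (univ.filter fun x => x ∉ W) = univ \ W := by
    ext x; simp
  rw [h2, Finset.card_sdiff_of_subset hW.1, Nat.cast_sub (Finset.card_le_card hW.1), hW.2,
    Finset.card_univ]

/-- **Kelly's lemma**. -/
theorem kelly {Φ : SimpleGraph V → Finset V → ℚ} (hΦ : Inv Φ) {G H : SimpleGraph V} {σ : V ≃ V}
    (hd : Deck G H σ) {j : ℕ} (hj : j < Fintype.card V) : S Φ j G = S Φ j H := by
  have h1 : ∀ v, ∑ W ∈ powersetCard j (univ.erase v), Φ G W =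
      ∑ W ∈ powersetCard j (univ.erase (σ v)), Φ H W := by
    intro v
    obtain ⟨f, hf, hiso⟩ := hd v
    rw [← hf, ← map_erase, powersetCard_map, Finset.sum_map]
    apply Finset.sum_congr rfl
    intro W hW
    rw [mem_powersetCard] at hW
    exact hΦ G H f W (hiso.mono hW.1)
  have h2 : ∑ v, ∑ W ∈ powersetCard j (univ.erase v), Φ G W =
      ∑ v, ∑ W ∈ powersetCard j (univ.erase v), Φ H W := by
    simp_rw [h1]
    exact Equiv.sum_comp σ (fun v => ∑ W ∈ powersetCard j (univ.erase v), Φ H W)
  rw [sum_erase, sum_erase] at h2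
  have h3 : (0 : ℚ) < (Fintype.card V : ℚ) - j := by
    rw [sub_pos]; exact_mod_cast hj
  exact mul_left_cancel₀ h3.ne' h2

/-- The sum over all proper subsets is reconstructible. -/
theorem kelly_proper {Φ : SimpleGraph V → Finset V → ℚ} (hΦ : Inv Φ) {G H : SimpleGraph V}
    {σ : V ≃ V} (hd : Deck G H σ) :
    ∑ W ∈ univ.filter (fun W : Finset V => W ≠ univ), Φ G W =
      ∑ W ∈ univ.filter (fun W : Finset V => W ≠ univ), Φ H W := by
  have h1 : ∀ K : SimpleGraph V, ∑ W ∈ univ.filter (fun W : Finset V => W ≠ univ), Φ K W =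
      ∑ j ∈ range (Fintype.card V), S Φ j K := by
    intro K
    have h2 : ∑ W : Finset V, Φ K W = ∑ j ∈ range (Fintype.card V + 1), S Φ j K := by
      rw [← powerset_univ, Finset.sum_powerset, Finset.card_univ]
      rfl
    rw [Finset.sum_range_succ] at h2
    have h3 : S Φ (Fintype.card V) K = Φ K univ := by
      rw [S, ← Finset.card_univ, powersetCard_self, Finset.sum_singleton]
    rw [h3, ← Finset.sum_filter_add_sum_filter_not univ (fun W : Finset V => W ≠ univ)] at h2
    have h4 : (univ.filter fun W : Finset V => ¬ W ≠ univ) = {univ} := by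
      ext W; simp
    rw [h4, Finset.sum_singleton] at h2
    exact add_right_cancel h2
  rw [h1, h1]
  exact Finset.sum_congr rfl fun j hj => kelly hΦ hd (mem_range.1 hj)

theorem kelly_all {Φ : SimpleGraph V → Finset V → ℚ} (hΦ : Inv Φ) {G H : SimpleGraph V}
    {σ : V ≃ V} (hd : Deck G H σ) (hu : Φ G univ = Φ H univ) :
    ∑ W, Φ G W = ∑ W, Φ H W := by
  rw [← Finset.sum_filter_add_sum_filter_not univ (fun W : Finset V => W ≠ univ),
    ← Finset.sum_filter_add_sum_filter_not univ (fun W : Finset V => W ≠ univ) (Φ H),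
    kelly_proper hΦ hd]
  have h4 : (univ.filter fun W : Finset V => ¬ W ≠ univ) = {univ} := by
    ext W; simp
  rw [h4, Finset.sum_singleton, Finset.sum_singleton, hu]

variable {C : Type*} [Fintype C] [DecidableEq C]

/-- The colour classes of `χ`. -/
def cls (χ : V → C) (i : C) : Finset V := univ.filter fun v => χ v = i

theorem sum_card_cls (χ : V → C) : ∑ i, (cls χ i).card = Fintype.card V := by
  unfold cls
  rw [← Finset.card_univ, ← Finset.card_eq_sum_card_fiberwise (f := χ) (t := univ)]
  intro x _; simp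

/-- The sum of `∏ g G (U i)` over all tuples `U` of subsets with union `W` and total size `|V|`. -/
def tup (g : SimpleGraph V → Finset V → ℚ) (C : Type*) [Fintype C] [DecidableEq C]
    (G : SimpleGraph V) (W : Finset V) : ℚ :=
  ∑ U : C → Finset V, if (∑ i, (U i).card = Fintype.card V ∧ univ.sup U = W) then
    ∏ i, g G (U i) else 0

theorem tup_inv {g : SimpleGraph V → Finset V → ℚ} (hg : Inv g) :
    Inv (tup g C) := by
  intro G H f W hW
  unfold tup
  let e : (C → Finset V) ≃ (C → Finset V) := Equiv.piCongrRight fun _ => Equiv.finsetCongr f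
  have he : ∀ U i, e U i = (U i).map f.toEmbedding := fun U i => rfl
  symm
  rw [← Equiv.sum_comp e]
  apply Finset.sum_congr rfl
  intro U _
  have h1 : ∑ i, (e U i).card = ∑ i, (U i).card :=
    Finset.sum_congr rfl fun i _ => by rw [he, Finset.card_map]
  have h2 : univ.sup (e U) = (univ.sup U).map f.toEmbedding := by
    ext x
    simp only [Finset.mem_sup, mem_univ, true_and, he, mem_map, Equiv.coe_toEmbedding]
    constructor
    · rintro ⟨i, y, hy, rfl⟩; exact ⟨y, ⟨i, hy⟩, rfl⟩
    · rintro ⟨y, ⟨i, hy⟩, rfl⟩; exact ⟨i, y, hy, rfl⟩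
  rw [h1, h2]
  by_cases h : (∑ i, (U i).card = Fintype.card V ∧ univ.sup U = W)
  · rw [if_pos h, if_pos ⟨h.1, by rw [h.2]⟩]
    apply Finset.prod_congr rfl
    intro i _
    rw [he]
    symm
    apply hg
    apply hW.mono
    rw [← h.2]
    exact Finset.le_sup (f := U) (mem_univ i)
  · rw [if_neg h, if_neg]
    rintro ⟨h3, h4⟩
    exact h ⟨h3, Finset.map_injective _ h4⟩

theorem cls_injective : Function.Injective (cls : (V → C) → C → Finset V) := by
  intro χ χ' h
  ext v
  have h1 : v ∈ cls χ (χ v) := by simp [cls]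
  rw [h] at h1
  simp only [cls, mem_filter, mem_univ, true_and] at h1
  exact h1.symm

theorem tup_univ (g : SimpleGraph V → Finset V → ℚ) (G : SimpleGraph V) :
    tup g C G univ = ∑ χ : V → C, ∏ i, g G (cls χ i) := by
  unfold tup
  rw [← Finset.sum_filter]
  symm
  apply Finset.sum_bij (fun χ _ => cls χ)
  · intro χ _
    simp only [mem_filter, mem_univ, true_and]
    refine ⟨sum_card_cls χ, ?_⟩
    rw [Finset.eq_univ_iff_forall]
    intro v
    rw [Finset.mem_sup]
    exact ⟨χ v, mem_univ _, by simp [cls]⟩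
  · intro χ _ χ' _ h
    exact cls_injective h
  · intro U hU
    simp only [mem_filter, mem_univ, true_and] at hU
    have h1 : ∀ v, ∃ i, v ∈ U i := by
      intro v
      have : v ∈ univ.sup U := by rw [hU.2]; exact mem_univ v
      rw [Finset.mem_sup] at this
      obtain ⟨i, _, hi⟩ := this
      exact ⟨i, hi⟩
    choose χ hχ using h1
    refine ⟨χ, mem_univ _, ?_⟩
    have h2 : ∀ i, cls χ i ⊆ U i := by
      intro i v hv
      simp only [cls, mem_filter, mem_univ, true_and] at hv
      rw [← hv]; exact hχ v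
    have h3 : ∑ i, (cls χ i).card = ∑ i, (U i).card := by rw [sum_card_cls, hU.1]
    have h4 := (Finset.sum_eq_sum_iff_of_le (fun i _ => Finset.card_le_card (h2 i))).1 h3
    funext i
    exact Finset.eq_of_subset_of_card_le (h2 i) (h4 i (mem_univ i)).ge
  · intro χ _
    rfl

theorem tup_sum (g : SimpleGraph V → Finset V → ℚ) (G : SimpleGraph V) :
    ∑ W, tup g C G W = ∑ j : C → Fin (Fintype.card V + 1),
      if ∑ i, (j i : ℕ) = Fintype.card V then ∏ i, S g (j i) G else 0 := by
  unfold tup
  rw [Finset.sum_comm]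
  have h1 : ∀ U : C → Finset V,
      (∑ W : Finset V, if (∑ i, (U i).card = Fintype.card V ∧ univ.sup U = W) then
        ∏ i, g G (U i) else 0) =
      if ∑ i, (U i).card = Fintype.card V then ∏ i, g G (U i) else 0 := by
    intro U
    rw [Finset.sum_eq_single (univ.sup U)]
    · by_cases h : ∑ i, (U i).card = Fintype.card V
      · rw [if_pos ⟨h, rfl⟩, if_pos h]
      · rw [if_neg (fun hh => h hh.1), if_neg h]
    · intro W _ hW
      rw [if_neg]
      rintro ⟨_, h⟩
      exact hW h.symm
    · intro h; exact absurd (mem_univ _) h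
  simp_rw [h1]
  have h2 : ∀ j : C → Fin (Fintype.card V + 1), (∏ i, S g (j i) G) =
      ∑ U : C → Finset V, if (∀ i, (U i).card = j i) then ∏ i, g G (U i) else 0 := by
    intro j
    unfold S
    rw [Finset.prod_univ_sum, ← Finset.sum_filter]
    apply Finset.sum_congr _ (fun _ _ => rfl)
    ext U
    simp [Fintype.mem_piFinset, mem_powersetCard]
  simp_rw [h2]
  have h3 : ∀ j : C → Fin (Fintype.card V + 1),
      (if ∑ i, (j i : ℕ) = Fintype.card V then
        (∑ U : C → Finset V, if (∀ i, (U i).card = j i) then ∏ i, g G (U i) else 0) else 0) =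
      ∑ U : C → Finset V, if (∀ i, (U i).card = j i) then
        (if ∑ i, (U i).card = Fintype.card V then ∏ i, g G (U i) else 0) else 0 := by
    intro j
    split_ifs with h
    · apply Finset.sum_congr rfl
      intro U _
      by_cases hU : ∀ i, (U i).card = j i
      · rw [if_pos hU, if_pos hU, if_pos]
        rw [← h]; exact Finset.sum_congr rfl fun i _ => hU i
      · rw [if_neg hU, if_neg hU]
    · symm
      apply Finset.sum_eq_zero
      intro U _
      by_cases hU : ∀ i, (U i).card = j i
      · rw [if_pos hU, if_neg]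
        intro hh
        exact h ((Finset.sum_congr rfl fun i _ => (hU i).symm).trans hh)
      · rw [if_neg hU]
  simp_rw [h3]
  rw [Finset.sum_comm]
  apply Finset.sum_congr rfl
  intro U _
  let j0 : C → Fin (Fintype.card V + 1) := fun i => ⟨(U i).card, by
    have := Finset.card_le_univ (U i); omega⟩
  rw [Finset.sum_eq_single j0]
  · rw [if_pos (fun i => rfl)]
  · intro j _ hj
    rw [if_neg]
    intro h
    apply hj
    funext i
    exact Fin.ext (h i).symm
  · intro h; exact absurd (mem_univ _) h

/-- **Kocay type lemma**: sums over ordered partitions are reconstructible. -/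
theorem kocay {g : SimpleGraph V → Finset V → ℚ} (hg : Inv g) {G H : SimpleGraph V} {σ : V ≃ V}
    (hd : Deck G H σ) (hu : g G univ = g H univ) :
    ∑ χ : V → C, ∏ i, g G (cls χ i) = ∑ χ : V → C, ∏ i, g H (cls χ i) := by
  have h1 : ∑ W, tup g C G W = ∑ W, tup g C H W := by
    rw [tup_sum, tup_sum]
    apply Finset.sum_congr rfl
    intro j _
    have h2 : ∀ i, S g (j i) G = S g (j i) H := by
      intro i
      rcases Nat.lt_succ_iff_lt_or_eq.1 (j i).2 with h | h
      · exact kelly hg hd h
      · rw [h]
        unfold S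
        rw [← Finset.card_univ, powersetCard_self, Finset.sum_singleton, Finset.sum_singleton, hu]
    simp_rw [h2]
  rw [← Finset.sum_filter_add_sum_filter_not univ (fun W : Finset V => W ≠ univ),
    ← Finset.sum_filter_add_sum_filter_not univ (fun W : Finset V => W ≠ univ) (tup g C H),
    kelly_proper (tup_inv hg) hd] at h1
  have h4 : (univ.filter fun W : Finset V => ¬ W ≠ univ) = {univ} := by
    ext W; simp
  rw [h4, Finset.sum_singleton, Finset.sum_singleton, tup_univ, tup_univ] at h1
  exact add_left_cancel h1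

end Pool.Agent.H15.EC
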