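import Mathlib
import Pool.Agent.H15.EC.Recon

/-!
A spin model on `Option C` in which the state `none` does not interact and the other states
interact as in the Potts model: its partition function is reconstructible.
-/

set_option autoImplicit false
set_option linter.unusedSectionVars false

namespace Pool.Agent.H15.EC

open Finset

variable {V : Type*} [Fintype V] [DecidableEq V]

/-- The edge `e` of `G` lies inside `W`. -/
def In (G : SimpleGraph V) (W : Finset V) (e : Sym2 V) : Prop :=
  e ∈ G.edgeSet ∧ ∀ v ∈ e, v ∈ W

theorem map_bij (f : V ≃ V) : Function.Bijective (Sym2.map f) :=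
  (Finite.injective_iff_bijective).1 (Sym2.map.injective f.injective)

theorem mem_edge_map {G H : SimpleGraph V} {f : V ≃ V} {W : Finset V} (h : PIso G H f W)
    (e : Sym2 V) (he : ∀ v ∈ e, v ∈ W) : e ∈ G.edgeSet ↔ Sym2.map f e ∈ H.edgeSet := by
  induction e with
  | _ a b =>
    rw [Sym2.map_mk, SimpleGraph.mem_edgeSet, SimpleGraph.mem_edgeSet]
    exact h a (he a (Sym2.mem_mk_left a b)) b (he b (Sym2.mem_mk_right a b))

theorem all_map (f : V ≃ V) (W : Finset V) (e : Sym2 V) :
    (∀ v ∈ Sym2.map f e, v ∈ W.map f.toEmbedding) ↔ ∀ v ∈ e, v ∈ W := by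
  induction e with
  | _ a b => simp [Sym2.map_mk]

theorem in_map {G H : SimpleGraph V} {f : V ≃ V} {W : Finset V} (h : PIso G H f W)
    (e : Sym2 V) : In G W e ↔ In H (W.map f.toEmbedding) (Sym2.map f e) := by
  unfold In
  rw [all_map]
  constructor
  · rintro ⟨h1, h2⟩; exact ⟨(mem_edge_map h e h2).1 h1, h2⟩
  · rintro ⟨h1, h2⟩; exact ⟨(mem_edge_map h e h2).2 h1, h2⟩

open Classical in
/-- `y` to the number of edges inside `W`. -/
noncomputable def gy (y : ℚ) (G : SimpleGraph V) (W : Finset V) : ℚ :=
  ∏ e : Sym2 V, if In G W e then y else 1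

theorem gy_inv (y : ℚ) : Inv (gy (V := V) y) := by
  classical
  intro G H f W h
  unfold gy
  symm
  rw [← (map_bij f).prod_comp]
  apply Finset.prod_congr rfl
  intro e _
  by_cases he : In G W e
  · rw [if_pos he, if_pos ((in_map h e).1 he)]
  · rw [if_neg he, if_neg (fun hh => he ((in_map h e).2 hh))]

open Classical in
/-- The number of edges inside `W`. -/
noncomputable def eC (G : SimpleGraph V) (W : Finset V) : ℚ :=
  ∑ e : Sym2 V, if In G W e then 1 else 0

theorem eC_inv : Inv (eC (V := V)) := by
  classical
  intro G H f W h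
  unfold eC
  symm
  rw [← (map_bij f).sum_comp]
  apply Finset.sum_congr rfl
  intro e _
  by_cases he : In G W e
  · rw [if_pos he, if_pos ((in_map h e).1 he)]
  · rw [if_neg he, if_neg (fun hh => he ((in_map h e).2 hh))]

theorem S_eC (G : SimpleGraph V) : S eC 2 G = eC G univ := by
  classical
  unfold S eC
  rw [Finset.sum_comm]
  apply Finset.sum_congr rfl
  intro e _
  induction e with
  | _ a b =>
    by_cases hab : G.Adj a b
    · have h1 : In G univ s(a, b) := ⟨hab, fun v _ => mem_univ v⟩
      rw [if_pos h1, Finset.sum_eq_single {a, b}]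
      · rw [if_pos]
        refine ⟨hab, fun v hv => ?_⟩
        rw [Sym2.mem_iff] at hv
        rw [mem_insert, mem_singleton]
        exact hv
      · intro W hW hne
        rw [if_neg]
        rintro ⟨_, h2⟩
        apply hne
        symm
        apply Finset.eq_of_subset_of_card_le
        · intro v hv
          rw [mem_insert, mem_singleton] at hv
          exact h2 v (Sym2.mem_iff.2 hv)
        · rw [(mem_powersetCard.1 hW).2, Finset.card_pair hab.ne]
      · intro h2
        exact absurd (mem_powersetCard.2 ⟨subset_univ _, Finset.card_pair hab.ne⟩) h2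
    · rw [if_neg (fun h => hab h.1)]
      apply Finset.sum_eq_zero
      intro W _
      rw [if_neg (fun h => hab h.1)]

theorem eC_rec {G H : SimpleGraph V} {σ : V ≃ V} (hd : Deck G H σ) (hn : 3 ≤ Fintype.card V) :
    eC G univ = eC H univ := by
  rw [← S_eC, ← S_eC]
  exact kelly eC_inv hd (by omega)

open Classical in
theorem eC_eq_card (G : SimpleGraph V) (W : Finset V) :
    eC G W = ((univ.filter fun e => In G W e).card : ℚ) := by
  unfold eC
  rw [← Finset.sum_filter, Finset.sum_const, nsmul_eq_mul, mul_one]

open Classical in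
theorem gy_eq_pow (y : ℚ) (G : SimpleGraph V) (W : Finset V) :
    gy y G W = y ^ (univ.filter fun e => In G W e).card := by
  unfold gy
  rw [← Finset.prod_filter, Finset.prod_const]

theorem gy_rec {G H : SimpleGraph V} {σ : V ≃ V} (hd : Deck G H σ) (hn : 3 ≤ Fintype.card V)
    (y : ℚ) : gy y G univ = gy y H univ := by
  classical
  have h := eC_rec hd hn
  rw [eC_eq_card, eC_eq_card] at h
  rw [gy_eq_pow, gy_eq_pow]
  congr 1
  exact_mod_cast h

open Classical in
/-- The number of edges at `v`. -/
noncomputable def inc (G : SimpleGraph V) (v : V) : ℕ :=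
  (univ.filter fun e : Sym2 V => e ∈ G.edgeSet ∧ v ∈ e).card

open Classical in
theorem eC_split (G : SimpleGraph V) (v : V) :
    eC G univ = eC G (univ.erase v) + inc G v := by
  rw [eC_eq_card, eC_eq_card, inc, ← Nat.cast_add]
  congr 1
  rw [← Finset.card_union_of_disjoint]
  · congr 1
    ext e
    simp only [In, mem_filter, mem_univ, true_and, mem_union, mem_erase, and_true, implies_true]
    constructor
    · intro he
      by_cases hv : v ∈ e
      · right; exact ⟨he, hv⟩
      · left; exact ⟨he, fun u hu huv => hv (huv ▸ hu)⟩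
    · rintro (h | h)
      · exact h.1
      · exact h.1
  · rw [Finset.disjoint_left]
    intro e h1 h2
    simp only [In, mem_filter, mem_univ, true_and, mem_erase, and_true] at h1 h2
    exact h1.2 v h2.2 rfl

theorem inc_rec {G H : SimpleGraph V} {σ : V ≃ V} (hd : Deck G H σ) (hn : 3 ≤ Fintype.card V)
    (v : V) : inc G v = inc H (σ v) := by
  have h1 := eC_split G v
  have h2 := eC_split H (σ v)
  obtain ⟨f, hf, hiso⟩ := hd v
  have h3 := eC_inv G H f _ hiso
  rw [map_erase, hf] at h3
  rw [eC_rec hd hn, h3] at h1
  rw [h1] at h2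
  exact_mod_cast add_left_cancel h2

variable {C : Type*} [Fintype C] [DecidableEq C]

/-- The interaction of two states. -/
def r (rs rd : ℚ) : Option C → Option C → ℚ
  | some i, some j => if i = j then rs else rd
  | _, _ => 1

theorem r_symm (rs rd : ℚ) (a b : Option C) : r rs rd a b = r rs rd b a := by
  cases a <;> cases b <;> simp [r, eq_comm]

/-- The interaction as a function of unordered pairs. -/
def r2 (rs rd : ℚ) : Sym2 (Option C) → ℚ := Sym2.lift ⟨r rs rd, r_symm rs rd⟩

theorem r2_mk (rs rd : ℚ) (a b : Option C) : r2 rs rd s(a, b) = r rs rd a b := rfl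

theorem r_none_left (rs rd : ℚ) (b : Option C) : r rs rd none b = 1 := by
  cases b <;> rfl

theorem r_none_right (rs rd : ℚ) (b : Option C) : r rs rd b none = 1 := by
  cases b <;> rfl

/-- The vertex weights. -/
def wt (a0 : ℚ) : Option C → ℚ
  | none => a0
  | some _ => -1

open Classical in
/-- The weight of a state. -/
noncomputable def w (a0 rs rd : ℚ) (G : SimpleGraph V) (χ : V → Option C) : ℚ :=
  (∏ v, wt a0 (χ v)) * ∏ e : Sym2 V, if e ∈ G.edgeSet then r2 rs rd (e.map χ) else 1

/-- The vertices in a state other than `none`. -/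
def supp (χ : V → Option C) : Finset V := univ.filter fun v => (χ v).isSome

/-- The partition function of states with given support. -/
noncomputable def Xi (C : Type*) [Fintype C] [DecidableEq C] (a0 rs rd : ℚ) (G : SimpleGraph V)
    (U : Finset V) : ℚ :=
  ∑ χ : V → Option C, if supp χ = U then w a0 rs rd G χ else 0

/-- The partition function. -/
noncomputable def WW (C : Type*) [Fintype C] [DecidableEq C] (a0 rs rd : ℚ)
    (G : SimpleGraph V) : ℚ :=
  ∑ χ : V → Option C, w a0 rs rd G χ

theorem WW_eq (a0 rs rd : ℚ) (G : SimpleGraph V) :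
    WW C a0 rs rd G = ∑ U, Xi C a0 rs rd G U := by
  unfold WW Xi
  rw [Finset.sum_comm]
  apply Finset.sum_congr rfl
  intro χ _
  rw [Finset.sum_ite_eq, if_pos (mem_univ _)]

theorem Xi_inv (a0 rs rd : ℚ) : Inv (Xi (V := V) C a0 rs rd) := by
  classical
  intro G H f W h
  unfold Xi
  symm
  rw [← Equiv.sum_comp (Equiv.arrowCongr f (Equiv.refl (Option C)))]
  apply Finset.sum_congr rfl
  intro χ _
  have h0 : (Equiv.arrowCongr f (Equiv.refl (Option C))) χ = χ ∘ f.symm := rfl
  rw [h0]
  have h1 : supp (χ ∘ f.symm) = (supp χ).map f.toEmbedding := by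
    ext v
    simp only [supp, mem_filter, mem_univ, true_and, Function.comp, mem_map,
      Equiv.coe_toEmbedding]
    constructor
    · intro hv; exact ⟨f.symm v, hv, f.apply_symm_apply v⟩
    · rintro ⟨u, hu, rfl⟩; rw [f.symm_apply_apply]; exact hu
  rw [h1]
  by_cases hs : supp χ = W
  · rw [if_pos hs, if_pos (by rw [hs])]
    unfold w
    congr 1
    · exact Equiv.prod_comp f.symm (fun v => wt a0 (χ v))
    · rw [← (map_bij f).prod_comp]
      apply Finset.prod_congr rfl
      intro e _
      have h2 : Sym2.map (χ ∘ f.symm) (Sym2.map f e) = Sym2.map χ e := by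
        rw [Sym2.map_map, Function.comp_assoc, Equiv.symm_comp_self, Function.comp_id]
      rw [h2]
      by_cases he : ∀ v ∈ e, v ∈ W
      · have h3 := mem_edge_map h e he
        by_cases h4 : e ∈ G.edgeSet
        · rw [if_pos h4, if_pos (h3.1 h4)]
        · rw [if_neg h4, if_neg (fun hh => h4 (h3.2 hh))]
      · have h5 : r2 rs rd (Sym2.map χ e) = 1 := by
          push Not at he
          obtain ⟨v, hv, hvW⟩ := he
          have h6 : χ v = none := by
            rw [← hs] at hvW
            simpa [supp] using hvW
          obtain ⟨u, rfl⟩ := hv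
          rw [Sym2.map_mk, r2_mk, h6, r_none_left]
        rw [h5, ite_self, ite_self]
  · rw [if_neg hs, if_neg]
    intro hh
    exact hs (Finset.map_injective _ hh)

theorem Xi_univ {a0 rs rd : ℚ} (hrd : rd ≠ 0) (G : SimpleGraph V) :
    Xi C a0 rs rd G univ = (-1) ^ Fintype.card V * gy rd G univ *
      ∑ χ : V → C, ∏ i, gy (rs / rd) G (cls χ i) := by
  classical
  unfold Xi
  rw [← Finset.sum_filter, Finset.mul_sum]
  symm
  apply Finset.sum_bij (fun (χ : V → C) _ => fun v => some (χ v))
  · intro χ _
    simp [supp]
  · intro χ _ χ' _ h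
    funext v
    exact Option.some.inj (congrFun h v)
  · intro χ hχ
    simp only [mem_filter, mem_univ, true_and] at hχ
    have h1 : ∀ v, ∃ i, χ v = some i := by
      intro v
      have : v ∈ supp χ := by rw [hχ]; exact mem_univ v
      simp only [supp, mem_filter, mem_univ, true_and] at this
      exact Option.isSome_iff_exists.1 this
    choose χ' hχ' using h1
    exact ⟨χ', mem_univ _, funext fun v => (hχ' v).symm⟩
  · intro χ _
    unfold w
    have h1 : ∏ v : V, wt (C := C) a0 (some (χ v)) = (-1) ^ Fintype.card V := by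
      simp [wt, Finset.prod_const, Finset.card_univ]
    rw [h1, mul_assoc]
    congr 1
    unfold gy
    rw [Finset.prod_comm, ← Finset.prod_mul_distrib]
    apply Finset.prod_congr rfl
    intro e _
    by_cases he : e ∈ G.edgeSet
    · have hin : In G univ e := ⟨he, fun v _ => mem_univ v⟩
      rw [if_pos he, if_pos hin]
      induction e with
      | _ a b =>
        rw [Sym2.map_mk, r2_mk]
        show rd * _ = if χ a = χ b then rs else rd
        have h2 : ∀ i, In G (cls χ i) s(a, b) ↔ (χ a = i ∧ χ b = i) := by
          intro i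
          constructor
          · rintro ⟨_, h⟩
            have ha := h a (Sym2.mem_mk_left a b)
            have hb := h b (Sym2.mem_mk_right a b)
            simp only [cls, mem_filter, mem_univ, true_and] at ha hb
            exact ⟨ha, hb⟩
          · rintro ⟨ha, hb⟩
            refine ⟨he, fun v hv => ?_⟩
            rw [Sym2.mem_iff] at hv
            simp only [cls, mem_filter, mem_univ, true_and]
            rcases hv with rfl | rfl
            · exact ha
            · exact hb
        simp_rw [h2]
        by_cases hab : χ a = χ b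
        · rw [if_pos hab, Finset.prod_eq_single (χ a)]
          · rw [if_pos ⟨rfl, hab.symm⟩]
            field_simp
          · intro i _ hi
            rw [if_neg]
            rintro ⟨h, _⟩
            exact hi h.symm
          · intro h; exact absurd (mem_univ _) h
        · rw [if_neg hab, Finset.prod_eq_one, mul_one]
          intro i _
          rw [if_neg]
          rintro ⟨h, h'⟩
          exact hab (h.trans h'.symm)
    · rw [if_neg he, if_neg (fun h => he h.1), one_mul]
      apply Finset.prod_eq_one
      intro i _
      rw [if_neg (fun h => he h.1)]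

/-- The partition function is reconstructible. -/
theorem WW_rec {G H : SimpleGraph V} {σ : V ≃ V} (hd : Deck G H σ) (hn : 3 ≤ Fintype.card V)
    (a0 rs : ℚ) {rd : ℚ} (hrd : rd ≠ 0) : WW C a0 rs rd G = WW C a0 rs rd H := by
  rw [WW_eq, WW_eq]
  apply kelly_all (Xi_inv a0 rs rd) hd
  rw [Xi_univ hrd, Xi_univ hrd, gy_rec hd hn, kocay (gy_inv _) hd (gy_rec hd hn _)]

end Pool.Agent.H15.EC
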