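import Mathlib
import Pool.Agent.H15.EC.Model

/-!
The partition function counts edge colourings with positive weights.
-/

set_option autoImplicit false
set_option linter.unusedSectionVars false

namespace Pool.Agent.H15.EC

open Finset

variable {V : Type} [Fintype V] [DecidableEq V]

/-- The vectors attached to the states. -/
def psi (k : ℕ) (x y : ℚ) : Option (Fin k) → Fin k → ℚ
  | none, _ => 1 / k
  | some i, a => if a = i then x else y

theorem prod_pair_mem {a b : V} (hab : a ≠ b) (F : V → ℚ) :
    ∏ v, (if v ∈ s(a, b) then F v else 1) = F a * F b := by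
  have h : ∀ v, (v ∈ s(a, b)) ↔ v ∈ ({a, b} : Finset V) := by
    intro v; rw [Sym2.mem_iff, mem_insert, mem_singleton]
  simp_rw [h]
  rw [Finset.prod_ite_mem, univ_inter, Finset.prod_pair hab]

/-- The parameters are good for `k` colours. -/
structure Good (k : ℕ) (a0 rs rd x y : ℚ) : Prop where
  rd0 : rd ≠ 0
  inter : ∀ s t : Option (Fin k), r rs rd s t = ∑ c, k * (psi k x y s c * psi k x y t c)
  loc : ∀ {ι : Type} [DecidableEq ι] (I : Finset ι) (f : ι → Fin k), I.card ≤ k →
    0 ≤ ∑ s : Option (Fin k), wt a0 s * ∏ e ∈ I, psi k x y s (f e) ∧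
    (0 < ∑ s : Option (Fin k), wt a0 s * ∏ e ∈ I, psi k x y s (f e) ↔ Set.InjOn f I)

theorem loc2 (p q : Fin 2) :
    ∑ s : Option (Fin 2), wt 20 s * (psi 2 2 (-1) s p * psi 2 2 (-1) s q) =
      if p = q then 0 else 9 := by
  rw [Fintype.sum_option, Fin.sum_univ_two]
  fin_cases p <;> fin_cases q <;> simp [wt, psi] <;> norm_num

theorem loc3 (p q t : Fin 3) :
    ∑ s : Option (Fin 3), wt 27 s * (psi 3 (-1) 1 s p * (psi 3 (-1) 1 s q * psi 3 (-1) 1 s t)) =
      if (p ≠ q ∧ p ≠ t ∧ q ≠ t) then 4 else 0 := by
  rw [Fintype.sum_option, Fin.sum_univ_three]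
  fin_cases p <;> fin_cases q <;> fin_cases t <;> simp [wt, psi] <;> norm_num

theorem loc3' (p q : Fin 3) :
    ∑ s : Option (Fin 3), wt 27 s * (psi 3 (-1) 1 s p * psi 3 (-1) 1 s q) =
      if p = q then 0 else 4 := by
  rw [Fintype.sum_option, Fin.sum_univ_three]
  fin_cases p <;> fin_cases q <;> simp [wt, psi] <;> norm_num

theorem good2 : Good 2 20 10 (-8) 2 (-1) where
  rd0 := by norm_num
  inter := by
    intro s t
    rw [Fin.sum_univ_two]
    rcases s with _ | s <;> rcases t with _ | t
    · simp [r, psi]; norm_num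
    · fin_cases t <;> simp [r, psi] <;> norm_num
    · fin_cases s <;> simp [r, psi] <;> norm_num
    · fin_cases s <;> fin_cases t <;> simp [r, psi] <;> norm_num
  loc := by
    intro ι _ I f hI
    interval_cases h : I.card
    · rw [Finset.card_eq_zero] at h
      subst h
      rw [Fintype.sum_option, Fin.sum_univ_two]
      simp [wt]
      norm_num
    · obtain ⟨a, rfl⟩ := Finset.card_eq_one.1 h
      simp only [Finset.prod_singleton]
      rw [Fintype.sum_option, Fin.sum_univ_two]
      generalize f a = p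
      have hv : wt 20 (none : Option (Fin 2)) * psi 2 2 (-1) none p +
          (wt 20 (some (0 : Fin 2)) * psi 2 2 (-1) (some 0) p +
          wt 20 (some (1 : Fin 2)) * psi 2 2 (-1) (some 1) p) = 9 := by
        fin_cases p <;> simp [wt, psi] <;> norm_num
      rw [hv]
      refine ⟨by norm_num, ?_⟩
      simp
    · obtain ⟨a, b, hab, rfl⟩ := Finset.card_eq_two.1 h
      simp only [Finset.prod_pair hab]
      rw [loc2]
      have hinj : Set.InjOn f (({a, b} : Finset ι) : Set ι) ↔ f a ≠ f b := by
        constructor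
        · intro hh hf
          exact hab (hh (by simp) (by simp) hf)
        · intro hh u hu v hv huv
          simp only [coe_insert, coe_singleton, Set.mem_insert_iff, Set.mem_singleton_iff] at hu hv
          rcases hu with rfl | rfl <;> rcases hv with rfl | rfl
          · rfl
          · exact absurd huv hh
          · exact absurd huv.symm hh
          · rfl
      rw [hinj]
      by_cases hf : f a = f b
      · simp [hf]
      · rw [if_neg hf]
        exact ⟨by norm_num, by simp [hf]⟩

theorem good3 : Good 3 27 9 (-3) (-1) 1 where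
  rd0 := by norm_num
  inter := by
    intro s t
    rw [Fin.sum_univ_three]
    rcases s with _ | s <;> rcases t with _ | t
    · simp [r, psi]; norm_num
    · fin_cases t <;> simp [r, psi]
    · fin_cases s <;> simp [r, psi]
    · fin_cases s <;> fin_cases t <;> simp [r, psi] <;> norm_num
  loc := by
    intro ι _ I f hI
    interval_cases h : I.card
    · rw [Finset.card_eq_zero] at h
      subst h
      rw [Fintype.sum_option, Fin.sum_univ_three]
      simp [wt]
      norm_num
    · obtain ⟨a, rfl⟩ := Finset.card_eq_one.1 h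
      simp only [Finset.prod_singleton]
      rw [Fintype.sum_option, Fin.sum_univ_three]
      generalize f a = p
      have hv : wt 27 (none : Option (Fin 3)) * psi 3 (-1) 1 none p +
          (wt 27 (some (0 : Fin 3)) * psi 3 (-1) 1 (some 0) p +
          wt 27 (some (1 : Fin 3)) * psi 3 (-1) 1 (some 1) p +
          wt 27 (some (2 : Fin 3)) * psi 3 (-1) 1 (some 2) p) = 8 := by
        fin_cases p <;> simp [wt, psi] <;> norm_num
      rw [hv]
      refine ⟨by norm_num, ?_⟩
      simp
    · obtain ⟨a, b, hab, rfl⟩ := Finset.card_eq_two.1 h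
      simp only [Finset.prod_pair hab]
      rw [loc3']
      have hinj : Set.InjOn f (({a, b} : Finset ι) : Set ι) ↔ f a ≠ f b := by
        constructor
        · intro hh hf
          exact hab (hh (by simp) (by simp) hf)
        · intro hh u hu v hv huv
          simp only [coe_insert, coe_singleton, Set.mem_insert_iff, Set.mem_singleton_iff] at hu hv
          rcases hu with rfl | rfl <;> rcases hv with rfl | rfl
          · rfl
          · exact absurd huv hh
          · exact absurd huv.symm hh
          · rfl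
      rw [hinj]
      by_cases hf : f a = f b
      · simp [hf]
      · rw [if_neg hf]
        exact ⟨by norm_num, by simp [hf]⟩
    · obtain ⟨a, b, c, hab, hac, hbc, rfl⟩ := Finset.card_eq_three.1 h
      have hp : ∀ F : ι → ℚ, ∏ e ∈ ({a, b, c} : Finset ι), F e = F a * (F b * F c) := by
        intro F
        rw [Finset.prod_insert (by simp [hab, hac]), Finset.prod_pair hbc]
      simp only [hp]
      rw [loc3]
      have hinj : Set.InjOn f (({a, b, c} : Finset ι) : Set ι) ↔
          (f a ≠ f b ∧ f a ≠ f c ∧ f b ≠ f c) := by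
        constructor
        · intro hh
          refine ⟨fun hf => hab (hh (by simp) (by simp) hf), fun hf => hac (hh (by simp) (by simp) hf),
            fun hf => hbc (hh (by simp) (by simp) hf)⟩
        · rintro ⟨h1, h2, h3⟩ u hu v hv huv
          simp only [coe_insert, coe_singleton, Set.mem_insert_iff, Set.mem_singleton_iff] at hu hv
          rcases hu with rfl | rfl | rfl <;> rcases hv with rfl | rfl | rfl
          · rfl
          · exact absurd huv h1
          · exact absurd huv h2
          · exact absurd huv.symm h1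
          · rfl
          · exact absurd huv h3
          · exact absurd huv.symm h2
          · exact absurd huv.symm h3
          · rfl
      rw [hinj]
      by_cases hf : (f a ≠ f b ∧ f a ≠ f c ∧ f b ≠ f c)
      · rw [if_pos hf]
        exact ⟨by norm_num, iff_of_true (by norm_num) hf⟩
      · rw [if_neg hf]
        exact ⟨le_refl _, iff_of_false (by norm_num) hf⟩

open Classical in
/-- The weight of an edge colouring at the vertex `v`. -/
noncomputable def Lv (k : ℕ) (a0 x y : ℚ) (G : SimpleGraph V) (f : G.edgeSet → Fin k) (v : V) :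
    ℚ :=
  ∑ s : Option (Fin k), wt a0 s *
    ∏ e ∈ univ.filter (fun e : G.edgeSet => v ∈ (e : Sym2 V)), psi k x y s (f e)

open Classical in
theorem WW_expand {k : ℕ} {a0 rs rd x y : ℚ} (hg : Good k a0 rs rd x y) (G : SimpleGraph V) :
    WW (Fin k) a0 rs rd G = ∑ f : G.edgeSet → Fin k,
      (k : ℚ) ^ Fintype.card G.edgeSet * ∏ v, Lv k a0 x y G f v := by
  unfold WW w
  have h1 : ∀ χ : V → Option (Fin k),
      (∏ e : Sym2 V, if e ∈ G.edgeSet then r2 rs rd (e.map χ) else 1) =
      ∑ f : G.edgeSet → Fin k, (k : ℚ) ^ Fintype.card G.edgeSet *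
        ∏ v, ∏ e : G.edgeSet, (if v ∈ (e : Sym2 V) then psi k x y (χ v) (f e) else 1) := by
    intro χ
    rw [← Finset.prod_filter,
      Finset.prod_subtype (univ.filter fun e : Sym2 V => e ∈ G.edgeSet)
        (p := fun e => e ∈ G.edgeSet) (by simp)]
    have h2 : ∀ e : G.edgeSet, r2 rs rd (Sym2.map χ (e : Sym2 V)) =
        ∑ c : Fin k, (k : ℚ) * ∏ v, (if v ∈ (e : Sym2 V) then psi k x y (χ v) c else 1) := by
      rintro ⟨e, he⟩
      induction e with
      | _ a b =>
        have hab : a ≠ b := (SimpleGraph.mem_edgeSet G).1 he |>.ne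
        show r2 rs rd (Sym2.map χ s(a, b)) = _
        rw [Sym2.map_mk, r2_mk, hg.inter]
        apply Finset.sum_congr rfl
        intro c _
        rw [prod_pair_mem hab (fun v => psi k x y (χ v) c)]
    have h3 : (∏ e : {e // e ∈ G.edgeSet}, r2 rs rd (Sym2.map χ (e : Sym2 V))) =
        ∏ e : G.edgeSet, ∑ c : Fin k, (k : ℚ) *
          ∏ v, (if v ∈ (e : Sym2 V) then psi k x y (χ v) c else 1) :=
      Finset.prod_congr rfl fun e _ => h2 e
    rw [h3, Finset.prod_univ_sum, Fintype.piFinset_univ]
    apply Finset.sum_congr rfl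
    intro f _
    rw [Finset.prod_mul_distrib, Finset.prod_const, Finset.card_univ, Finset.prod_comm]
  simp_rw [h1, Finset.mul_sum]
  rw [Finset.sum_comm]
  apply Finset.sum_congr rfl
  intro f _
  have h4 : ∀ χ : V → Option (Fin k), (∏ v, wt a0 (χ v)) * ((k : ℚ) ^ Fintype.card G.edgeSet *
      ∏ v, ∏ e : G.edgeSet, (if v ∈ (e : Sym2 V) then psi k x y (χ v) (f e) else 1)) =
      (k : ℚ) ^ Fintype.card G.edgeSet * ∏ v, (wt a0 (χ v) *
        ∏ e : G.edgeSet, (if v ∈ (e : Sym2 V) then psi k x y (χ v) (f e) else 1)) := by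
    intro χ
    rw [Finset.prod_mul_distrib]
    ring
  simp_rw [h4]
  rw [← Finset.mul_sum]
  congr 1
  have h5 := Finset.prod_univ_sum (fun _ : V => (univ : Finset (Option (Fin k))))
    (fun v s => wt a0 s * ∏ e : G.edgeSet, (if v ∈ (e : Sym2 V) then psi k x y s (f e) else 1))
  rw [Fintype.piFinset_univ] at h5
  rw [← h5]
  apply Finset.prod_congr rfl
  intro v _
  unfold Lv
  apply Finset.sum_congr rfl
  intro s _
  rw [Finset.prod_filter]

open Classical in
theorem card_inc (G : SimpleGraph V) (v : V) :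
    (univ.filter (fun e : G.edgeSet => v ∈ (e : Sym2 V))).card = inc G v := by
  unfold inc
  rw [← Finset.card_map (Function.Embedding.subtype _)]
  congr 1
  ext e
  simp only [mem_map, mem_filter, mem_univ, true_and, Function.Embedding.subtype_apply,
    Subtype.exists, exists_and_right, exists_eq_right]
  constructor
  · rintro ⟨h1, h2⟩; exact ⟨h1, h2⟩
  · rintro ⟨h1, h2⟩; exact ⟨h1, h2⟩

theorem colorable_iff {k : ℕ} (G : SimpleGraph V) :
    G.lineGraph.Colorable k ↔ ∃ f : G.edgeSet → Fin k, ∀ v : V,
      Set.InjOn f {e | v ∈ (e : Sym2 V)} := by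
  constructor
  · rintro ⟨c⟩
    refine ⟨c, fun v e he e' he' hee => ?_⟩
    by_contra hne
    exact c.valid (SimpleGraph.lineGraph_adj_iff_exists.2 ⟨hne, v, he, he'⟩) hee
  · rintro ⟨f, hf⟩
    refine ⟨SimpleGraph.Coloring.mk f ?_⟩
    intro e e' hadj hee
    obtain ⟨hne, v, hv, hv'⟩ := SimpleGraph.lineGraph_adj_iff_exists.1 hadj
    exact hne (hf v hv hv' hee)

theorem WW_pos_iff {k : ℕ} (hk : 0 < k) {a0 rs rd x y : ℚ} (hg : Good k a0 rs rd x y)
    (G : SimpleGraph V) (hdeg : ∀ v, inc G v ≤ k) :
    0 < WW (Fin k) a0 rs rd G ↔ G.lineGraph.Colorable k := by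
  classical
  rw [WW_expand hg, colorable_iff]
  have hkq : (0 : ℚ) < (k : ℚ) ^ Fintype.card G.edgeSet := by positivity
  have hL : ∀ f v, 0 ≤ Lv k a0 x y G f v ∧
      (0 < Lv k a0 x y G f v ↔ Set.InjOn f {e | v ∈ (e : Sym2 V)}) := by
    intro f v
    have h := hg.loc (univ.filter (fun e : G.edgeSet => v ∈ (e : Sym2 V))) f
      (by rw [card_inc]; exact hdeg v)
    have hs : (↑(univ.filter (fun e : G.edgeSet => v ∈ (e : Sym2 V))) : Set ↥G.edgeSet) =
        {e : ↥G.edgeSet | v ∈ (e : Sym2 V)} := by
      ext e; simp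
    rw [hs] at h
    exact h
  have hterm : ∀ f : G.edgeSet → Fin k, 0 ≤ (k : ℚ) ^ Fintype.card G.edgeSet *
      ∏ v, Lv k a0 x y G f v :=
    fun f => mul_nonneg hkq.le (Finset.prod_nonneg fun v _ => (hL f v).1)
  constructor
  · intro h
    obtain ⟨f, _, hf⟩ := Finset.exists_ne_zero_of_sum_ne_zero h.ne'
    refine ⟨f, fun v => ?_⟩
    rw [← (hL f v).2]
    apply lt_of_le_of_ne (hL f v).1
    intro h0
    apply hf
    rw [Finset.prod_eq_zero (mem_univ v) h0.symm, mul_zero]
  · rintro ⟨f, hf⟩
    apply Finset.sum_pos' (fun f _ => hterm f)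
    exact ⟨f, mem_univ _, mul_pos hkq (Finset.prod_pos fun v _ => ((hL f v).2).2 (hf v))⟩

end Pool.Agent.H15.EC
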